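import Pool.Agent.TH652.Dual7
import Pool.Agent.W497.CC.Sum

/-!
# Links given by graphs
-/

set_option autoImplicit false

namespace Pool.Agent.R781.CubeAQ

open Pool.Agent.W497.FS Pool.Agent.W497.CC Pool.Agent.W907.SG Pool.Agent.TH652.Above

/-- `G` is the graph of the link of the vertex `v`: the cubes which contain `v`, ordered by inclusion,
correspond to the cliques of the finite graph `G` (`v` itself to the empty clique) -/
def IsGraphLink {P : Type} [PartialOrder P] (v : P) {V : Type} (G : SimpleGraph V) : Prop :=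
  ∃ e : {x : P // v ≤ x} ≃ {F : Finset V // G.IsClique (F : Set V)},
    ∀ x y, x.1 ≤ y.1 ↔ (e x).1 ⊆ (e y).1

open Classical in
/-- the flag complex of `G` as a family of finite subsets of `Fin n` -/
noncomputable def fam {V : Type} {n : ℕ} (φ : V ≃ Fin n) (G : SimpleGraph V) : Finset (Finset (Fin n)) :=
  Finset.univ.filter fun F => G.IsClique ((F.map φ.symm.toEmbedding : Finset V) : Set V)

theorem mem_fam {V : Type} {n : ℕ} (φ : V ≃ Fin n) (G : SimpleGraph V) (F : Finset (Fin n)) :
    F ∈ fam φ G ↔ G.IsClique ((F.map φ.symm.toEmbedding : Finset V) : Set V) := by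
  classical
  simp [fam]

theorem fam_down {V : Type} {n : ℕ} (φ : V ≃ Fin n) (G : SimpleGraph V) :
    ∀ F ∈ fam φ G, ∀ F' : Finset (Fin n), F' ⊆ F → F' ∈ fam φ G := by
  intro F hF F' h
  rw [mem_fam] at hF ⊢
  exact hF.subset (Finset.coe_subset.2 (Finset.map_subset_map.2 h))

/-- the correspondence of the cliques and the faces -/
noncomputable def cliqueEquiv {V : Type} {n : ℕ} (φ : V ≃ Fin n) (G : SimpleGraph V) :
    {F : Finset V // G.IsClique (F : Set V)} ≃ {F : Finset (Fin n) // F ∈ fam φ G} where
  toFun F := ⟨F.1.map φ.toEmbedding, by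
    rw [mem_fam, Finset.map_map]
    have : φ.toEmbedding.trans φ.symm.toEmbedding = Function.Embedding.refl V := by
      ext; simp
    rw [this, Finset.map_refl]
    exact F.2⟩
  invFun F := ⟨F.1.map φ.symm.toEmbedding, (mem_fam φ G F.1).1 F.2⟩
  left_inv F := by
    apply Subtype.ext
    simp only [Finset.map_map]
    have : φ.toEmbedding.trans φ.symm.toEmbedding = Function.Embedding.refl V := by
      ext; simp
    rw [this, Finset.map_refl]
  right_inv F := by
    apply Subtype.ext
    simp only [Finset.map_map]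
    have : φ.symm.toEmbedding.trans φ.toEmbedding = Function.Embedding.refl (Fin n) := by
      ext; simp
    rw [this, Finset.map_refl]

theorem isLink_fam {P : Type} [PartialOrder P] {v : P} {V : Type} {n : ℕ} (φ : V ≃ Fin n)
    {G : SimpleGraph V} (h : IsGraphLink v G) : IsLink v (fam φ G) := by
  obtain ⟨e, he⟩ := h
  refine ⟨e.trans (cliqueEquiv φ G), fun x y => ?_⟩
  rw [he]
  show _ ↔ ((e x).1.map φ.toEmbedding) ⊆ ((e y).1.map φ.toEmbedding)
  rw [Finset.map_subset_map]

theorem omega_fam {V : Type} [Fintype V] {n : ℕ} (φ : V ≃ Fin n) (G : SimpleGraph V) :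
    omega (fam φ G) = chiW G := by
  classical
  unfold omega chiW
  rw [← Finset.sum_filter]
  symm
  refine Finset.sum_bij (fun F _ => F.map φ.toEmbedding) ?_ ?_ ?_ ?_
  · intro F hF
    rw [Finset.mem_filter] at hF
    exact (cliqueEquiv φ G ⟨F, hF.2⟩).2
  · intro F _ F' _ h
    exact Finset.map_injective _ h
  · intro F hF
    refine ⟨F.map φ.symm.toEmbedding, ?_, ?_⟩
    · rw [Finset.mem_filter]
      exact ⟨Finset.mem_univ _, (mem_fam φ G F).1 hF⟩
    · rw [Finset.map_map]
      have : φ.symm.toEmbedding.trans φ.toEmbedding = Function.Embedding.refl (Fin n) := by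
        ext; simp
      rw [this, Finset.map_refl]
  · intro F _
    rw [Finset.card_map, div_pow]

end Pool.Agent.R781.CubeAQ
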